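import Pool.Agent.H18.Ee5b76Proof

set_option autoImplicit false

namespace Pool.Agent.Results.MP_ee5b76_ag.Defect

open Pool.Agent.H18.Ee5b76

universe u

/-- Over every algebraically closed field there is a finite subscheme of some affine space whose
smoothability defect exceeds its degree. -/
theorem result (k : Type u) [Field k] [IsAlgClosed k] :
    ∃ (n : ℕ) (I : Ideal (MvPolynomial (Fin n) k)), IsFiniteScheme I ∧
      (degree I : ℕ∞) < smoothabilityDefect I :=
  main k

end Pool.Agent.Results.MP_ee5b76_ag.Defect
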